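import Mathlib

namespace Pool.Agent.Results.MP_dc8297_co.Counter

open Finset

/-- A simple ordered 2-stage graph with `n` sources and `n` targets is a relation `L` on `Fin n`
(`L u v`: source `u` is joined to target `v`).  It is `k`-regular if all degrees are `k`. -/
def Regular {n : ℕ} (L : Fin n → Fin n → Prop) (k : ℕ) : Prop :=
  (∀ u, Nat.card {v // L u v} = k) ∧ ∀ v, Nat.card {u // L u v} = k

/-- `p 0, …, p l` is a plain path of `L ^ l` (the vertex `p i` lies in class `i`) -/
def Plain {n : ℕ} (L : Fin n → Fin n → Prop) (l : ℕ) (p : ℕ → Fin n) : Prop :=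
  ∀ i < l, L (p i) (p (i + 1))

/-- `L ^ l` is externally connected -/
def ExtConn {n : ℕ} (L : Fin n → Fin n → Prop) (l : ℕ) : Prop :=
  ∀ s t, ∃ p, Plain L l p ∧ p 0 = s ∧ p l = t

/-- `L ^ l` is rearrangeable: for every mask (a multigraph with edge set `ε`, the edge `e` joining
source `s e` to target `t e`, with the degrees of `L ^ l`) there are edge-disjoint plain paths -/
def Rearr {n : ℕ} (L : Fin n → Fin n → Prop) (l : ℕ) : Prop :=
  ∀ (ε : Type) [Finite ε] (s t : ε → Fin n),
    (∀ u, Nat.card {e // s e = u} = Nat.card {v // L u v}) →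
    (∀ v, Nat.card {e // t e = v} = Nat.card {u // L u v}) →
    ∃ P : ε → ℕ → Fin n, (∀ e, Plain L l (P e) ∧ P e 0 = s e ∧ P e l = t e) ∧
      ∀ e e', e ≠ e' → ∀ i < l, ¬ (P e i = P e' i ∧ P e (i + 1) = P e' (i + 1))

def f0 : Fin 12 → Fin 12 := ![0, 2, 10, 0, 2, 4, 6, 8, 4, 6, 8, 10]
def f1 : Fin 12 → Fin 12 := ![1, 3, 5, 1, 3, 5, 7, 9, 11, 7, 9, 11]
def L0 (u v : Fin 12) : Prop := v = f0 u ∨ v = f1 u
instance (u v : Fin 12) : Decidable (L0 u v) := by unfold L0; infer_instance

def R (s : Fin 12) : ℕ → Finset (Fin 12)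
  | 0 => {s}
  | l + 1 => (R s l).image f0 ∪ (R s l).image f1

lemma reach (s : Fin 12) (l : ℕ) : ∀ t ∈ R s l, ∃ p, Plain L0 l p ∧ p 0 = s ∧ p l = t := by
  induction l with
  | zero => exact fun t ht => ⟨fun _ => s, fun _ h => absurd h (by omega), rfl, (mem_singleton.1 ht).symm⟩
  | succ l ih =>
    intro t ht
    have : ∃ u ∈ R s l, L0 u t := by
      rcases mem_union.1 ht with h | h <;> obtain ⟨u, hu, rfl⟩ := mem_image.1 h
      · exact ⟨u, hu, Or.inl rfl⟩
      · exact ⟨u, hu, Or.inr rfl⟩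
    obtain ⟨u, hu, hut⟩ := this
    obtain ⟨p, h1, h2, h3⟩ := ih u hu
    refine ⟨fun i => if i ≤ l then p i else t, fun i hi => ?_, by simpa using h2, by simp⟩
    rcases (Nat.lt_succ_iff.1 hi).lt_or_eq with h | rfl
    · simpa [h.le, Nat.succ_le_of_lt h] using h1 i h
    · simpa [h3] using hut

lemma reg : Regular L0 2 := by
  constructor <;> intro u <;> rw [Nat.card_eq_fintype_card] <;> revert u <;> decide

lemma cross : ∀ u v, L0 u v → u.val < 6 → ¬ v.val < 6 → u = 2 ∧ v = 10 := by decide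

theorem result : ∃ (n k m : ℕ) (L : Fin n → Fin n → Prop), 1 ≤ k ∧ 1 ≤ m ∧ Regular L k ∧
    ExtConn L m ∧ ¬ Rearr L (2 * m) := by
  refine ⟨12, 2, 5, L0, by norm_num, by norm_num, reg, fun s t => reach s 5 t ?_, fun h => ?_⟩
  · revert s t; decide +kernel
  obtain ⟨P, h1, h2⟩ := h (Fin 12 × Fin 2) (fun e => e.1) (fun e => e.1 + 6)
    (fun u => by rw [reg.1, Nat.card_eq_fintype_card]; revert u; decide)
    (fun u => by rw [reg.2, Nat.card_eq_fintype_card]; revert u; decide)
  have key : ∀ e : Fin 6 × Fin 2, ∃ i : Fin 10, P (e.1.castLE (by norm_num), e.2) i = 2 ∧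
      P (e.1.castLE (by norm_num), e.2) (i + 1) = 10 := by
    intro e
    obtain ⟨a1, a2, a3⟩ := h1 (e.1.castLE (by norm_num), e.2)
    generalize P (e.1.castLE (by norm_num), e.2) = p at a1 a2 a3
    by_contra hc
    push Not at hc
    have : ∀ i ≤ 10, (p i).val < 6 := by
      intro i
      induction i with
      | zero => intro _; rw [a2]; exact e.1.2
      | succ i ih =>
        intro hi
        by_contra h3
        obtain ⟨b1, b2⟩ := cross _ _ (a1 i (by omega)) (ih (by omega)) h3
        exact hc ⟨i, by omega⟩ b1 b2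
    have h4 := this 10 le_rfl
    rw [a3] at h4
    exact (by decide : ∀ x : Fin 6, ¬ ((x.castLE (by norm_num) : Fin 12) + 6).val < 6) _ h4
  choose g g1 g2 using key
  have hg : g.Injective := fun e e' he => by
    by_contra hne
    refine h2 (e.1.castLE (by norm_num), e.2) (e'.1.castLE (by norm_num), e'.2) (fun h => hne ?_)
      (g e) (g e).2 ⟨by rw [g1, he, g1], by rw [g2, he, g2]⟩
    rw [Prod.mk.injEq] at h
    exact Prod.ext (Fin.castLE_injective _ h.1) h.2
  have := Fintype.card_le_of_injective g hg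
  simp at this

end Pool.Agent.Results.MP_dc8297_co.Counter
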